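import Pool.Agent.Lib.MP_354b3e_lc.Use

set_option autoImplicit false
open Classical

namespace Pool.Agent.Lib.MP354b3e

open Nat.Partrec (Code)
open Encodable Denumerable

/-- Bounded universal quantification over a computable predicate. -/
theorem computablePred_forall_lt {α : Type*} [Primcodable α] {p : α → ℕ → Prop} {D : α → ℕ}
    (hp : ComputablePred (fun q : α × ℕ => p q.1 q.2)) (hD : Computable D) :
    ComputablePred (fun a : α => ∀ x < D a, p a x) := by
  have h1 : Computable (fun q : α × ℕ => decide (p q.1 q.2)) := hp.decide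
  have h2 : Computable (fun a : α => Nat.rec (motive := fun _ => Bool) true
      (fun y IH => IH && decide (p a y)) (D a)) := by
    refine Computable.nat_rec (f := D) (g := fun _ => true)
      (h := fun (a : α) (r : ℕ × Bool) => r.2 && decide (p a r.1)) hD (Computable.const true) ?_
    exact Primrec.and.to_comp.comp (Computable.snd.comp Computable.snd)
      (h1.comp (Computable.fst.pair (Computable.fst.comp Computable.snd)))
  have key : ∀ (a : α) (n : ℕ), Nat.rec (motive := fun _ => Bool) true
      (fun y IH => IH && decide (p a y)) n = decide (∀ x < n, p a x) := by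
    intro a n
    induction n with
    | zero => simp
    | succ n ih =>
      simp only [ih]
      rw [← Bool.decide_and, decide_eq_decide]
      constructor
      · rintro ⟨h3, h4⟩ x hx
        rcases Nat.lt_succ_iff_lt_or_eq.1 hx with h | h
        · exact h3 x h
        · exact h ▸ h4
      · intro h
        exact ⟨fun x hx => h x (Nat.lt_succ_of_lt hx), h n (Nat.lt_succ_self n)⟩
  refine ⟨fun a => Classical.dec _, h2.of_eq fun a => ?_⟩
  rw [key, decide_eq_decide]

theorem computablePred_comp {α β : Type*} [Primcodable α] [Primcodable β] {p : β → Prop}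
    {f : α → β} (hp : ComputablePred p) (hf : Computable f) :
    ComputablePred (fun a => p (f a)) :=
  ⟨inferInstance, hp.decide.comp hf⟩

theorem computablePred_imp {α : Type*} [Primcodable α] {p q : α → Prop}
    (hp : ComputablePred p) (hq : ComputablePred q) :
    ComputablePred (fun a => p a → q a) := by
  refine ⟨inferInstance, ?_⟩
  have := Primrec.or.to_comp.comp (Primrec.not.to_comp.comp hp.decide) hq.decide
  refine this.of_eq ?_
  intro a
  by_cases h1 : p a <;> by_cases h2 : q a <;> simp [h1, h2]

theorem computablePred_ne_bool {α : Type*} [Primcodable α] {f g : α → Bool}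
    (hf : Computable f) (hg : Computable g) : ComputablePred (fun a => f a ≠ g a) := by
  have h : ComputablePred (fun a => f a = g a) :=
    ⟨inferInstance, (PrimrecRel.decide Primrec.eq).to_comp.comp hf hg⟩
  exact h.not

theorem computablePred_lt {α : Type*} [Primcodable α] {f g : α → ℕ}
    (hf : Computable f) (hg : Computable g) : ComputablePred (fun a => f a < g a) :=
  ⟨inferInstance, (PrimrecRel.decide Primrec.nat_lt).to_comp.comp hf hg⟩

theorem computablePred_le {α : Type*} [Primcodable α] {f g : α → ℕ}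
    (hf : Computable f) (hg : Computable g) : ComputablePred (fun a => f a ≤ g a) :=
  ⟨inferInstance, (PrimrecRel.decide Primrec.nat_le).to_comp.comp hf hg⟩

/-- Unbounded search for a computable relation, packaged. -/
theorem exists_computable_search {Q : ℕ → ℕ → Prop}
    (hQ : ComputablePred (fun p : ℕ × ℕ => Q p.1 p.2)) (hex : ∀ x, ∃ n, Q x n) :
    ∃ L : ℕ → ℕ, Computable L ∧ (∀ x, Q x (L x)) ∧ ∀ x n, Q x n → L x ≤ n := by
  have : DecidableRel Q := fun a b => Classical.dec _
  exact ⟨fun x => Nat.find (hex x), Computable.find hQ hex, fun x => Nat.find_spec (hex x),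
    fun x n h => Nat.find_min' (hex x) h⟩

theorem exists_mono_bound (b : ℕ → ℕ) (hb : Computable b) :
    ∃ B : ℕ → ℕ, Computable B ∧ (∀ n, n < B n) ∧ ∀ n x, x < n → b x ≤ B n := by
  refine ⟨fun n => Nat.rec (motive := fun _ => ℕ) 1
    (fun x acc => max (max acc (b x)) (x + 2)) n, ?_, ?_, ?_⟩
  · refine Computable.nat_rec (f := fun n : ℕ => n) (g := fun _ => 1)
      (h := fun (_ : ℕ) (r : ℕ × ℕ) => max (max r.2 (b r.1)) (r.1 + 2)) Computable.id
      (Computable.const 1) ?_
    have h1 : Computable (fun q : ℕ × (ℕ × ℕ) => q.2.2) := Computable.snd.comp Computable.snd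
    have h2 : Computable (fun q : ℕ × (ℕ × ℕ) => q.2.1) := Computable.fst.comp Computable.snd
    have h3 : Computable (fun q : ℕ × (ℕ × ℕ) => q.2.1 + 2) :=
      Primrec.nat_add.to_comp.comp h2 (Computable.const 2)
    exact Primrec.nat_max.to_comp.comp (Primrec.nat_max.to_comp.comp h1 (hb.comp h2)) h3
  · intro n
    cases n with
    | zero => exact Nat.zero_lt_one
    | succ n => simp only; omega
  · intro n
    induction n with
    | zero => intro x hx; omega
    | succ n ih =>
      intro x hx
      rcases Nat.lt_succ_iff_lt_or_eq.1 hx with h | h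
      · have := ih x h
        simp only at this ⊢
        omega
      · subst h
        simp only
        omega

theorem exists_blocks (b : ℕ → ℕ) (hb : Computable b) :
    ∃ d : ℕ → ℕ, Computable d ∧ d 0 = 0 ∧ (∀ s, d s < d (s + 1)) ∧
      ∀ s x, x < d s → b x ≤ d (s + 1) := by
  obtain ⟨B, hBc, hB1, hB2⟩ := exists_mono_bound b hb
  refine ⟨fun s => Nat.rec (motive := fun _ => ℕ) 0 (fun _ acc => B acc) s, ?_, rfl, ?_, ?_⟩
  · refine Computable.nat_rec (f := fun n : ℕ => n) (g := fun _ => 0)
      (h := fun (_ : ℕ) (r : ℕ × ℕ) => B r.2) Computable.id (Computable.const 0) ?_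
    exact hBc.comp (Computable.snd.comp Computable.snd)
  · intro s; exact hB1 _
  · intro s x hx; exact hB2 _ _ hx

theorem exists_layers (b : ℕ → ℕ) (hb : Computable b) :
    ∃ d L : ℕ → ℕ, Computable d ∧ Computable L ∧ (∀ s x, x < d s → b x ≤ d (s + 1)) ∧
      (∀ x, x < d (L x + 1)) ∧ (∀ x, d (L x) ≤ x) ∧ ∀ x n, x < d (n + 1) → L x ≤ n := by
  obtain ⟨d, hdc, hd0, hdlt, hdb⟩ := exists_blocks b hb
  have hdmono : StrictMono d := strictMono_nat_of_lt_succ hdlt
  have hdge : ∀ s, s ≤ d s := fun s => hdmono.le_apply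
  obtain ⟨L, hLc, hL1, hL2⟩ := exists_computable_search (Q := fun x s => x < d (s + 1))
    (computablePred_lt Computable.fst (hdc.comp (Computable.succ.comp Computable.snd)))
    (fun x => ⟨x, lt_of_le_of_lt (hdge x) (hdlt x)⟩)
  refine ⟨d, L, hdc, hLc, hdb, hL1, ?_, hL2⟩
  intro x
  rcases Nat.eq_zero_or_pos (L x) with h | h
  · rw [h, hd0]; exact Nat.zero_le _
  · by_contra hcon
    have h1 : x < d (L x - 1 + 1) := by
      rw [show L x - 1 + 1 = L x by omega]
      omega
    have := hL2 x _ h1
    omega

/-- Bits of a code of a Boolean list. -/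
def bitOf (w x : ℕ) : Bool :=
  (((decode (α := List Bool) w).getD [])[x]?).getD false

theorem bitOf_computable : Computable₂ bitOf :=
  Computable.option_getD (Computable.list_getElem?.comp
    ((Computable.option_getD Computable.decode (Computable.const _)).comp Computable.fst)
    Computable.snd) (Computable.const false)

theorem bitOf_encode (f : ℕ → Bool) (n x : ℕ) (hx : x < n) :
    bitOf (encode ((List.range n).map f)) x = f x := by
  simp [bitOf, List.getElem?_range hx]

theorem exists_patterns (G : SimpleGraph ℕ)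
    (hG : ComputablePred (fun p : ℕ × ℕ => G.Adj p.1 p.2))
    (hcol : G.Colorable 2) (d : ℕ → ℕ) (hdc : Computable d) :
    ∃ W : ℕ → ℕ, Computable W ∧ ∀ s, ∀ x < d (s + 1), ∀ y < d (s + 1), d s ≤ x → d s ≤ y →
      G.Adj x y → bitOf (W s) x ≠ bitOf (W s) y := by
  have hP : ComputablePred (fun p : ℕ × ℕ => ∀ x < d (p.1 + 1), ∀ y < d (p.1 + 1),
      d p.1 ≤ x → d p.1 ≤ y → G.Adj x y → bitOf p.2 x ≠ bitOf p.2 y) := by
    have hD1 : Computable (fun p : ℕ × ℕ => d (p.1 + 1)) :=
      hdc.comp (Computable.succ.comp Computable.fst)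
    have hD2 : Computable (fun p : (ℕ × ℕ) × ℕ => d (p.1.1 + 1)) :=
      hD1.comp Computable.fst
    refine computablePred_forall_lt (α := ℕ × ℕ) (D := fun p => d (p.1 + 1))
      (p := fun p x => ∀ y < d (p.1 + 1), d p.1 ≤ x → d p.1 ≤ y → G.Adj x y →
        bitOf p.2 x ≠ bitOf p.2 y) ?_ hD1
    refine computablePred_forall_lt (α := (ℕ × ℕ) × ℕ) (D := fun p => d (p.1.1 + 1))
      (p := fun p y => d p.1.1 ≤ p.2 → d p.1.1 ≤ y → G.Adj p.2 y →
        bitOf p.1.2 p.2 ≠ bitOf p.1.2 y) ?_ hD2
    have e1 : Computable (fun q : ((ℕ × ℕ) × ℕ) × ℕ => q.1.1.1) :=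
      Computable.fst.comp (Computable.fst.comp Computable.fst)
    have e2 : Computable (fun q : ((ℕ × ℕ) × ℕ) × ℕ => q.1.1.2) :=
      Computable.snd.comp (Computable.fst.comp Computable.fst)
    have e3 : Computable (fun q : ((ℕ × ℕ) × ℕ) × ℕ => q.1.2) :=
      Computable.snd.comp Computable.fst
    have e4 : Computable (fun q : ((ℕ × ℕ) × ℕ) × ℕ => q.2) := Computable.snd
    refine computablePred_imp (computablePred_le (hdc.comp e1) e3) ?_
    refine computablePred_imp (computablePred_le (hdc.comp e1) e4) ?_
    refine computablePred_imp (computablePred_comp hG (e3.pair e4)) ?_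
    exact computablePred_ne_bool (bitOf_computable.comp e2 e3) (bitOf_computable.comp e2 e4)
  have hPex : ∀ s, ∃ w, ∀ x < d (s + 1), ∀ y < d (s + 1),
      d s ≤ x → d s ≤ y → G.Adj x y → bitOf w x ≠ bitOf w y := by
    intro s
    obtain ⟨C⟩ := hcol
    refine ⟨encode ((List.range (d (s + 1))).map (fun x => decide (C x = 0))), ?_⟩
    intro x hx y hy _ _ hadj
    rw [bitOf_encode _ _ _ hx, bitOf_encode _ _ _ hy]
    have hne := C.valid hadj
    intro h
    rw [decide_eq_decide] at h
    apply hne
    have key : ∀ u v : Fin 2, (u = 0 ↔ v = 0) → u = v := by decide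
    exact key _ _ h
  obtain ⟨W, hWc, hW, _⟩ := exists_computable_search (Q := fun s w => ∀ x < d (s + 1),
    ∀ y < d (s + 1), d s ≤ x → d s ≤ y → G.Adj x y → bitOf w x ≠ bitOf w y) hP hPex
  exact ⟨W, hWc, hW⟩

/-- A bipartite graph with computable adjacency and computably bounded neighbourhoods has a
computable proper `4`-colouring. -/
theorem exists_computable_colouring (G : SimpleGraph ℕ)
    (hG : ComputablePred (fun p : ℕ × ℕ => G.Adj p.1 p.2))
    (hcol : G.Colorable 2)
    (b : ℕ → ℕ) (hb : Computable b) (hbG : ∀ x y, G.Adj x y → y < b x) :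
    ∃ c : ℕ → ℕ, Computable c ∧ (∀ x, c x < 4) ∧ ∀ x y, G.Adj x y → c x ≠ c y := by
  obtain ⟨d, L, hdc, hLc, hdb, hL1, hL2, hL3⟩ := exists_layers b hb
  obtain ⟨W, hWc, hW⟩ := exists_patterns G hG hcol d hdc
  refine ⟨fun x => 2 * (L x % 2) + (bif bitOf (W (L x)) x then 1 else 0), ?_, ?_, ?_⟩
  · refine Primrec.nat_add.to_comp.comp ?_ ?_
    · exact Primrec.nat_mul.to_comp.comp (Computable.const 2)
        (Primrec.nat_mod.to_comp.comp hLc (Computable.const 2))
    · exact Computable.cond (bitOf_computable.comp (hWc.comp hLc) Computable.id)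
        (Computable.const 1) (Computable.const 0)
  · intro x
    have h1 : (bif bitOf (W (L x)) x then 1 else 0) ≤ 1 := by
      cases bitOf (W (L x)) x <;> simp
    have h2 : L x % 2 < 2 := Nat.mod_lt _ (by norm_num)
    simp only
    omega
  · have hstep : ∀ x y, G.Adj x y → L y ≤ L x + 1 := by
      intro x y hadj
      exact hL3 _ _ (lt_of_lt_of_le (hbG x y hadj) (hdb _ _ (hL1 x)))
    intro x y hadj heq
    have h1 := hstep x y hadj
    have h2 := hstep y x hadj.symm
    simp only at heq
    have h3 : L x % 2 = L y % 2 := by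
      cases hbx : bitOf (W (L x)) x <;> cases hby : bitOf (W (L y)) y <;>
        simp only [hbx, hby, cond_true, cond_false] at heq <;> omega
    have h4 : L x = L y := by omega
    have h5 := hW (L x) x (hL1 x) y (by rw [h4]; exact hL1 y) (hL2 x)
      (by rw [h4]; exact hL2 y) hadj
    apply h5
    rw [← h4] at heq
    cases hbx : bitOf (W (L x)) x <;> cases hby : bitOf (W (L x)) y <;>
      simp only [hbx, hby, cond_true, cond_false] at heq <;> first | rfl | omega

end Pool.Agent.Lib.MP354b3e
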