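import Pool.Agent.Lib.MP_354b3e_lc.Use

set_option autoImplicit false
open Classical

namespace Pool.Agent.Lib.MP354b3e

open Nat.Partrec (Code)
open Encodable Denumerable

/-- The `e`-th c.e. set of strings. -/
def InW (e : ℕ) (σ : List Bool) : Prop := ((ofNat Code e).eval (encode σ)).Dom

/-- Decoding of pairs (string, number). -/
def dec (m : ℕ) : List Bool × ℕ := (decode (α := List Bool × ℕ) m).getD ([], 0)

theorem dec_encode (a : List Bool × ℕ) : dec (encode a) = a := by
  simp [dec]

theorem dec_computable : Computable dec :=
  Computable.option_getD Computable.decode (Computable.const _)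

/-- One step of the search for an extension in the `e`-th c.e. set. -/
def searchStep (p : ℕ × List Bool) (m : ℕ) : Option (List Bool) :=
  bif (Code.evaln (dec m).2 (ofNat Code p.1)
      (encode (p.2 ++ (dec m).1))).isSome
  then some (p.2 ++ (dec m).1) else none

/-- Search for an extension of `σ` in the `e`-th c.e. set. -/
def search (p : ℕ × List Bool) : Part (List Bool) :=
  Nat.rfindOpt (searchStep p)

theorem searchStep_computable : Computable₂ searchStep := by
  have hm : Computable (fun q : (ℕ × List Bool) × ℕ => dec q.2) :=
    dec_computable.comp Computable.snd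
  have happ : Computable (fun q : (ℕ × List Bool) × ℕ =>
      q.1.2 ++ (dec q.2).1) :=
    Computable.list_append.comp (Computable.snd.comp Computable.fst) (Computable.fst.comp hm)
  have hc : Computable (fun q : (ℕ × List Bool) × ℕ => ofNat Code q.1.1) :=
    (Computable.ofNat _).comp (Computable.fst.comp Computable.fst)
  have hev : Computable (fun q : (ℕ × List Bool) × ℕ =>
      Code.evaln (dec q.2).2 (ofNat Code q.1.1)
      (encode (q.1.2 ++ (dec q.2).1))) :=
    Code.primrec_evaln.to_comp.comp
      (((Computable.snd.comp hm).pair hc).pair (Computable.encode.comp happ))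
  exact Computable.cond (Primrec.option_isSome.to_comp.comp hev)
    (Computable.option_some.comp happ) (Computable.const none)

theorem search_partrec : Partrec search :=
  Partrec.rfindOpt searchStep_computable

theorem search_spec {e : ℕ} {σ τ : List Bool} (h : τ ∈ search (e, σ)) :
    σ <+: τ ∧ InW e τ := by
  obtain ⟨m, hm⟩ := Nat.rfindOpt_spec h
  unfold searchStep at hm
  simp only [Option.mem_def] at hm
  cases hb : (Code.evaln (dec m).2 (ofNat Code e)
      (encode (σ ++ (dec m).1))).isSome with
  | false => rw [hb] at hm; simp at hm
  | true =>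
    rw [hb] at hm
    simp only [cond_true, Option.some.injEq] at hm
    subst hm
    refine ⟨List.prefix_append _ _, ?_⟩
    rw [Option.isSome_iff_exists] at hb
    obtain ⟨v, hv⟩ := hb
    have := Code.evaln_sound hv
    exact Part.dom_iff_mem.2 ⟨v, this⟩

theorem search_dom {e : ℕ} {σ τ : List Bool} (h : σ <+: τ) (hW : InW e τ) :
    (search (e, σ)).Dom := by
  obtain ⟨t, rfl⟩ := h
  obtain ⟨v, hv⟩ := Part.dom_iff_mem.1 hW
  obtain ⟨k, hk⟩ := Code.evaln_complete.1 hv
  unfold search
  rw [Nat.rfindOpt_dom]
  refine ⟨encode ((t, k) : List Bool × ℕ), σ ++ t, ?_⟩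
  unfold searchStep
  simp only [Option.mem_def, dec_encode] at hk ⊢
  rw [hk]
  simp

/-- The approximations. -/
noncomputable def appr : ℕ → List Bool
  | 0 => []
  | e + 1 => (if h : (search (e, appr e)).Dom then (search (e, appr e)).get h else appr e)
      ++ [false]

theorem appr_prefix_succ (e : ℕ) : appr e <+: appr (e + 1) := by
  rw [appr]
  split_ifs with h
  · exact (search_spec (Part.get_mem h)).1.trans (List.prefix_append _ _)
  · exact List.prefix_append _ _

theorem appr_prefix {e e' : ℕ} (h : e ≤ e') : appr e <+: appr e' := by
  induction h with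
  | refl => exact List.prefix_rfl
  | step _ ih => exact ih.trans (appr_prefix_succ _)

theorem le_length_appr (e : ℕ) : e ≤ (appr e).length := by
  induction e with
  | zero => exact Nat.zero_le _
  | succ e ih =>
    rw [appr]
    split_ifs with h
    · have := (search_spec (Part.get_mem h)).1.length_le
      simp only [List.length_append, List.length_singleton]
      omega
    · simp only [List.length_append, List.length_singleton]
      omega

/-- The generic set. -/
def genSet : Set ℕ := {n | (appr (n + 1))[n]? = some true}

theorem getElem?_appr {e n : ℕ} (h : n < (appr e).length) :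
    (appr e)[n]? = some (decide (n ∈ genSet)) := by
  have h1 : (appr (n + 1))[n]? = (appr (max e (n + 1)))[n]? := by
    obtain ⟨t, ht⟩ := appr_prefix (le_max_right e (n + 1))
    rw [← ht, List.getElem?_append_left]
    exact lt_of_lt_of_le (Nat.lt_succ_self n) (le_length_appr (n + 1))
  have h2 : (appr e)[n]? = (appr (max e (n + 1)))[n]? := by
    obtain ⟨t, ht⟩ := appr_prefix (le_max_left e (n + 1))
    rw [← ht, List.getElem?_append_left h]
  rw [h2, ← h1]
  have h3 : n < (appr (n + 1)).length :=
    lt_of_lt_of_le (Nat.lt_succ_self n) (le_length_appr (n + 1))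
  rw [List.getElem?_eq_getElem h3]
  simp only [genSet, Set.mem_ofPred_eq, List.getElem?_eq_getElem h3, Option.some.injEq]
  cases (appr (n + 1))[n] <;> simp

theorem appr_eq_restr (e : ℕ) : appr e = restr genSet (appr e).length := by
  apply List.ext_getElem?
  intro n
  by_cases h : n < (appr e).length
  · rw [getElem?_appr h, restr_getElem?, if_pos h]
  · rw [restr_getElem?, if_neg h, List.getElem?_eq_none_iff]
    omega

/-- Genericity: every c.e. set of strings is met or avoided. -/
theorem generic (e : ℕ) :
    ∃ k, InW e (restr genSet k) ∨ ∀ τ, restr genSet k <+: τ → ¬ InW e τ := by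
  by_cases h : (search (e, appr e)).Dom
  · obtain ⟨h1, h2⟩ := search_spec (Part.get_mem h)
    refine ⟨((search (e, appr e)).get h).length, Or.inl ?_⟩
    have h3 : (search (e, appr e)).get h <+: appr (e + 1) := by
      rw [appr, dif_pos h]
      exact List.prefix_append _ _
    have h4 : restr genSet ((search (e, appr e)).get h).length = (search (e, appr e)).get h := by
      have h5 : (search (e, appr e)).get h <+: restr genSet (appr (e + 1)).length := by
        rw [← appr_eq_restr]; exact h3
      have h6 : restr genSet ((search (e, appr e)).get h).length <+: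
          restr genSet (appr (e + 1)).length := restr_prefix _ h3.length_le
      have := List.prefix_of_prefix_length_le h5 h6 (by rw [restr_length])
      exact (this.eq_of_length (by rw [restr_length])).symm
    rw [h4]
    exact h2
  · refine ⟨(appr e).length, Or.inr ?_⟩
    rw [← appr_eq_restr]
    intro τ hτ hW
    exact h (search_dom hτ hW)

/-- Every partial recursive function on strings has a c.e. domain in the list. -/
theorem exists_index {α : Type*} [Primcodable α] {f : List Bool →. α} (hf : Partrec f) :
    ∃ e, ∀ σ, InW e σ ↔ (f σ).Dom := by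
  obtain ⟨c, hc⟩ := Code.exists_code.1 hf
  refine ⟨encode c, fun σ => ?_⟩
  unfold InW
  rw [ofNat_encode, hc]
  simp

theorem not_computable_genSet : ¬ ComputablePred (fun n : ℕ => n ∈ genSet) := by
  intro hA
  have hA' : Computable (fun n : ℕ => decide (n ∈ genSet)) := hA.decide
  let f : List Bool →. ℕ := fun σ =>
    Nat.rfind (fun i => Part.some (decide (σ[i]? = some (!(decide (i ∈ genSet))))))
  have hf : Partrec f := by
    refine Partrec.rfind ?_
    refine Computable.partrec ?_
    have h1 : Computable (fun q : List Bool × ℕ => q.1[q.2]?) :=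
      Computable.list_getElem?.comp Computable.fst Computable.snd
    have h2 : Computable (fun q : List Bool × ℕ => some (!(decide (q.2 ∈ genSet)))) :=
      Computable.option_some.comp (Primrec.not.to_comp.comp (hA'.comp Computable.snd))
    exact (PrimrecRel.decide Primrec.eq).to_comp.comp h1 h2
  obtain ⟨e, he⟩ := exists_index hf
  have hdom : ∀ σ, (f σ).Dom ↔ ∃ i, σ[i]? = some (!(decide (i ∈ genSet))) := by
    intro σ
    simp [f, Nat.rfind_dom]
  obtain ⟨k, hk | hk⟩ := generic e
  · rw [he, hdom] at hk
    obtain ⟨i, hi⟩ := hk
    rw [restr_getElem?] at hi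
    split_ifs at hi with h
    simp at hi
  · apply hk (restr genSet k ++ [!(decide (k ∈ genSet))]) (List.prefix_append _ _)
    rw [he, hdom]
    refine ⟨k, ?_⟩
    rw [List.getElem?_append_right (by rw [restr_length])]
    simp [restr_length]

end Pool.Agent.Lib.MP354b3e
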