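import Pool.Agent.Lib.MP_354b3e_lc.Generic
import Pool.Agent.Lib.MP_354b3e_lc.Colour

set_option autoImplicit false
open Classical

namespace Pool.Agent.Lib.MP354b3e

open Nat.Partrec (Code)
open Encodable Denumerable

/-- Stage approximations of a partial recursive function. -/
theorem exists_approx {α : Type*} [Primcodable α] {f : α →. ℕ} (hf : Partrec f) :
    ∃ ev : α → ℕ → Option ℕ, Computable₂ ev ∧ ∀ a v, v ∈ f a ↔ ∃ t, ev a t = some v := by
  obtain ⟨c, hc⟩ := Code.exists_code.1 hf
  refine ⟨fun a t => Code.evaln t c (encode a), ?_, ?_⟩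
  · exact Code.primrec_evaln.to_comp.comp
      ((Computable.snd.pair (Computable.const c)).pair (Computable.encode.comp Computable.fst))
  · intro a v
    have h1 : v ∈ c.eval (encode a) ↔ v ∈ f a := by
      rw [hc]
      simp
    rw [← h1, Code.evaln_complete]
    rfl

theorem mem_le_encode_list (l : List ℕ) (y : ℕ) (hy : y ∈ l) : y ≤ encode l := by
  induction l with
  | nil => simp at hy
  | cons a l ih =>
    rw [Encodable.encode_list_cons]
    rcases List.mem_cons.1 hy with h | h
    · subst h
      exact le_trans (Nat.left_le_pair _ _) (Nat.le_succ _)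
    · exact le_trans (ih h) (le_trans (Nat.right_le_pair _ _) (Nat.le_succ _))

theorem mem_le_encode_finset (s : Finset ℕ) (y : ℕ) (hy : y ∈ s) : y ≤ encode s := by
  have h : encode s = encode s.1 := rfl
  have h2 : decode (α := Multiset ℕ) (encode s.1) = some s.1 := encodek _
  have h3 : (decode (α := Multiset ℕ) (encode s.1)) =
    (decode (α := List ℕ) (encode s.1)).map (fun l : List ℕ => (l : Multiset ℕ)) := rfl
  rw [h3, Option.map_eq_some_iff] at h2
  obtain ⟨l, hl1, hl2⟩ := h2
  have h4 : encode l = encode s.1 := by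
    have := Denumerable.decode_inv (α := List ℕ) (encode s.1)
    obtain ⟨a, ha, ha2⟩ := this
    rw [hl1] at ha
    rw [Option.mem_def, Option.some.injEq] at ha
    rw [ha]; exact ha2
  rw [h, ← h4]
  apply mem_le_encode_list
  have : y ∈ s.1 := hy
  rw [← hl2] at this
  exact this

/-- A decidable matrix for the c.e. set of strings giving a wrong answer. -/
theorem exists_wrong_test (G : SimpleGraph ℕ)
    (hG : ComputablePred (fun p : ℕ × ℕ => G.Adj p.1 p.2))
    (F : List Bool → ℕ →. ℕ) (ev : List Bool × ℕ → ℕ → Option ℕ) (hev : Computable₂ ev)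
    (hev2 : ∀ (a : List Bool × ℕ) (v : ℕ), v ∈ F a.1 a.2 ↔ ∃ t, ev a t = some v) :
    ∃ R : List Bool → ℕ → Bool, Computable₂ R ∧
      ∀ σ, (∃ m, R σ m = true) ↔ ∃ x y v, v ∈ F σ x ∧ v < y ∧ G.Adj x y := by
  obtain ⟨A, hA, hA2⟩ := ComputablePred.computable_iff.1 hG
  have hA3 : ∀ x y, A (x, y) = true ↔ G.Adj x y := by
    intro x y
    have := congrFun hA2 (x, y)
    simp only [eq_iff_iff] at this
    exact this.symm
  have hT : Computable (fun r : (ℕ × ℕ) × ℕ => decide (r.2 < r.1.2) && A r.1) := by
    refine Primrec.and.to_comp.comp ?_ (hA.comp Computable.fst)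
    exact (PrimrecRel.decide Primrec.nat_lt).to_comp.comp Computable.snd
      (Computable.snd.comp Computable.fst)
  have e1 : Computable (fun q : List Bool × ℕ => q.2.unpair.1) :=
    Computable.fst.comp (Computable.unpair.comp Computable.snd)
  have e2 : Computable (fun q : List Bool × ℕ => q.2.unpair.2.unpair.1) :=
    Computable.fst.comp (Computable.unpair.comp
      (Computable.snd.comp (Computable.unpair.comp Computable.snd)))
  have e3 : Computable (fun q : List Bool × ℕ => q.2.unpair.2.unpair.2) :=
    Computable.snd.comp (Computable.unpair.comp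
      (Computable.snd.comp (Computable.unpair.comp Computable.snd)))
  have ho : Computable (fun q : List Bool × ℕ => ev (q.1, q.2.unpair.1) q.2.unpair.2.unpair.2) :=
    hev.comp (Computable.fst.pair e1) e3
  have hg : Computable₂ (fun (q : List Bool × ℕ) (v : ℕ) =>
      decide (v < q.2.unpair.2.unpair.1) && A (q.2.unpair.1, q.2.unpair.2.unpair.1)) := by
    have := hT.comp (((e1.comp (Computable.fst (α := List Bool × ℕ) (β := ℕ))).pair
      (e2.comp Computable.fst)).pair Computable.snd)
    exact this
  have hR := Computable.option_casesOn ho (Computable.const false) hg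
  refine ⟨fun (σ : List Bool) (m : ℕ) => Option.casesOn (motive := fun _ => Bool)
      (ev (σ, m.unpair.1) m.unpair.2.unpair.2) false
      (fun v => decide (v < m.unpair.2.unpair.1) && A (m.unpair.1, m.unpair.2.unpair.1)),
      Computable₂.mk hR, ?_⟩
  intro σ
  constructor
  · rintro ⟨m, hm⟩
    simp only at hm
    cases hv : ev (σ, m.unpair.1) m.unpair.2.unpair.2 with
    | none => rw [hv] at hm; simp at hm
    | some v =>
      rw [hv] at hm
      simp only [Bool.and_eq_true, decide_eq_true_eq, hA3] at hm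
      exact ⟨m.unpair.1, m.unpair.2.unpair.1, v, (hev2 (σ, m.unpair.1) v).2 ⟨_, hv⟩, hm.1, hm.2⟩
  · rintro ⟨x, y, v, hv, hvy, hadj⟩
    obtain ⟨t, ht⟩ := (hev2 (σ, x) v).1 hv
    refine ⟨Nat.pair x (Nat.pair y t), ?_⟩
    simp only [Nat.unpair_pair, ht, hvy, (hA3 x y).2 hadj, decide_true, Bool.and_self]

/-- Neighbourhoods computable from the generic set are computably bounded. -/
theorem exists_bound (G : SimpleGraph ℕ)
    (hG : ComputablePred (fun p : ℕ × ℕ => G.Adj p.1 p.2))
    (N : ℕ → Finset ℕ) (hN : ∀ x y : ℕ, G.Adj x y ↔ y ∈ N x)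
    (hred : TuringReducible (fun x : ℕ => Part.some (Encodable.encode (N x)))
            (fun n : ℕ => Part.some (if n ∈ genSet then (1 : ℕ) else 0))) :
    ∃ b : ℕ → ℕ, Computable b ∧ ∀ x y, G.Adj x y → y < b x := by
  obtain ⟨F, hF⟩ := exists_functional genSet _ (RecursiveIn.iff_nat.1 hred)
  obtain ⟨ev, hev, hev2⟩ := exists_approx hF.partrec
  -- the c.e. set of wrong strings
  obtain ⟨R, hR, hRiff⟩ := exists_wrong_test G hG F ev hev hev2
  have hf' : Partrec (fun σ : List Bool => Nat.rfind (fun m => Part.some (R σ m))) :=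
    Partrec.rfind hR.partrec₂
  obtain ⟨e, he⟩ := exists_index hf'
  have he' : ∀ σ, InW e σ ↔ ∃ x y v, v ∈ F σ x ∧ v < y ∧ G.Adj x y := by
    intro σ
    rw [he, ← hRiff, Nat.rfind_dom]
    constructor
    · rintro ⟨n, hn, _⟩
      exact ⟨n, (Part.mem_some_iff.1 hn).symm⟩
    · rintro ⟨n, hn⟩
      exact ⟨n, Part.mem_some_iff.2 hn.symm, fun {m} _ => trivial⟩
  obtain ⟨k0, hk | hk⟩ := generic e
  · exfalso
    rw [he'] at hk
    obtain ⟨x, y, v, hv, hvy, hadj⟩ := hk
    have h1 := hF.sound hv
    simp only [Part.mem_some_iff] at h1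
    subst h1
    have := mem_le_encode_finset (N x) y ((hN x y).1 hadj)
    omega
  · -- search for an extension on which the computation converges
    have hgood : ∀ τ, restr genSet k0 <+: τ → ∀ x v, v ∈ F τ x → ∀ y, G.Adj x y → y ≤ v := by
      intro τ hτ x v hv y hadj
      by_contra hcon
      exact hk τ hτ ((he' τ).2 ⟨x, y, v, hv, not_le.1 hcon, hadj⟩)
    let S : ℕ → ℕ → Option ℕ := fun x m => ev (restr genSet k0 ++ (dec m).1, x) (dec m).2
    have hS : Computable₂ S := by
      have e1 : Computable (fun q : ℕ × ℕ => restr genSet k0 ++ (dec q.2).1) :=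
        Computable.list_append.comp (Computable.const _)
          (Computable.fst.comp (dec_computable.comp Computable.snd))
      exact hev.comp (e1.pair Computable.fst)
        (Computable.snd.comp (dec_computable.comp Computable.snd))
    have hSp : Partrec (fun x => Nat.rfindOpt (S x)) := Partrec.rfindOpt hS
    have hdom : ∀ x, (Nat.rfindOpt (S x)).Dom := by
      intro x
      rw [Nat.rfindOpt_dom]
      obtain ⟨k, hk⟩ := hF.complete (n := x) (y := encode (N x)) (Part.mem_some _)
      have h1 := hF.mono (restr_prefix genSet (le_max_left k k0)) hk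
      obtain ⟨τ, hτ⟩ := restr_prefix genSet (le_max_right k k0)
      rw [← hτ] at h1
      obtain ⟨t, ht⟩ := (hev2 (restr genSet k0 ++ τ, x) _).1 h1
      refine ⟨encode ((τ, t) : List Bool × ℕ), encode (N x), ?_⟩
      simp only [S, dec_encode]
      exact ht
    refine ⟨fun x => (Nat.rfindOpt (S x)).get (hdom x) + 1, ?_, ?_⟩
    · refine Computable.succ.comp ?_
      exact hSp.of_eq_tot (fun x => Part.get_mem _)
    · intro x y hadj
      obtain ⟨m, hm⟩ := Nat.rfindOpt_spec (Part.get_mem (hdom x))
      have h1 := hgood (restr genSet k0 ++ (dec m).1) (List.prefix_append _ _) x _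
        ((hev2 (restr genSet k0 ++ (dec m).1, x) _).2 ⟨_, hm⟩) y hadj
      exact Nat.lt_succ_of_le h1

end Pool.Agent.Lib.MP354b3e
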