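import Pool.Agent.Lib.MP_354b3e_lc.Generic

set_option autoImplicit false
open Classical

namespace Pool.Agent.Lib.MP354b3e

open Nat.Partrec (Code)
open Encodable Denumerable

/-- The characteristic function of the halting set. -/
noncomputable def haltK : ℕ →. ℕ := fun n : ℕ => Part.some
  (if ((Denumerable.ofNat Nat.Partrec.Code n).eval n).Dom then (1 : ℕ) else 0)

theorem exists_hidx : ∃ c0 : Code, ∀ (p : ℕ × List Bool) (x : ℕ),
    ((Code.curry c0 (encode p)).eval x).Dom ↔ (search p).Dom := by
  have h1 : Nat.Partrec (fun n => Part.bind (decode (α := ℕ × List Bool) n)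
      fun a => (search a).map encode) := search_partrec
  have h2 : Nat.Partrec (fun x : ℕ => (x.unpair.1 : Part ℕ)) := Nat.Partrec.left
  obtain ⟨c0, hc0⟩ := Code.exists_code.1 (h1.comp h2)
  refine ⟨c0, fun p x => ?_⟩
  rw [Code.eval_curry, hc0]
  simp only [Part.bind_eq_bind, Part.bind_dom, Nat.unpair_pair]
  constructor
  · rintro ⟨h1, h2, h3⟩
    simp only [Part.coe_some, Part.get_some, encodek] at h3
    exact h3
  · intro h
    refine ⟨trivial, ?_⟩
    simp only [Part.coe_some, Part.get_some, encodek]
    exact ⟨trivial, h⟩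

/-- The transition function of the construction. -/
def trans (q : (ℕ × List Bool) × ℕ) : Part (List Bool) :=
  bif decide (q.2 = 0) then Part.some (q.1.2 ++ [false])
  else (search q.1).map (fun τ => τ ++ [false])

theorem trans_partrec : Partrec trans := by
  refine Partrec.cond ?_ ?_ ?_
  · exact (Primrec.eq.comp Primrec.snd (Primrec.const 0)).decide.to_comp
  · exact (Computable.list_append.comp (Computable.snd.comp Computable.fst)
      (Computable.const _)).partrec
  · refine Partrec.map (search_partrec.comp Computable.fst) ?_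
    exact (Computable.list_append.comp Computable.snd (Computable.const _)).to₂

theorem trans_spec (c0 : Code) (hc0 : ∀ (p : ℕ × List Bool) (x : ℕ),
    ((Code.curry c0 (encode p)).eval x).Dom ↔ (search p).Dom) (e : ℕ) :
    appr (e + 1) ∈ (haltK (encode (Code.curry c0 (encode (e, appr e))))).bind
      (fun b => trans ((e, appr e), b)) := by
  unfold haltK
  rw [ofNat_encode, Part.bind_some, hc0, appr]
  split_ifs with h
  · simp only [trans, one_ne_zero, decide_false, cond_false, Part.mem_map_iff]
    exact ⟨_, Part.get_mem h, rfl⟩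
  · simp [trans]

theorem seq_recursiveIn : Nat.RecursiveIn {haltK} (fun n => Part.some (encode (appr n))) := by
  obtain ⟨c0, hc0⟩ := exists_hidx
  -- the number version of the transition function
  have hT : Nat.RecursiveIn {haltK} (fun n => Part.bind
      (decode (α := (ℕ × List Bool) × ℕ) n) fun a => (trans a).map encode) :=
    Nat.Partrec.recursiveIn trans_partrec
  have hX : Nat.RecursiveIn {haltK} (fun n => (n.unpair.2 : Part ℕ)) := Nat.RecursiveIn.right
  have hH : Computable (fun z : ℕ => encode (Code.curry c0 z.unpair.2)) :=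
    Computable.encode.comp (Code.primrec₂_curry.to_comp.comp (Computable.const c0)
      (Computable.snd.comp Computable.unpair))
  have hH' : Nat.RecursiveIn {haltK}
      (fun z : ℕ => Part.some (encode (Code.curry c0 z.unpair.2))) :=
    Nat.Partrec.recursiveIn (Partrec.nat_iff.1 hH)
  have hO : Nat.RecursiveIn {haltK} haltK := Nat.RecursiveIn.oracle _ rfl
  have hstep := Nat.RecursiveIn.comp hT (Nat.RecursiveIn.pair hX (Nat.RecursiveIn.comp hO hH'))
  have hbase : Nat.RecursiveIn {haltK} (fun _ => Part.some (encode ([] : List Bool))) :=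
    Nat.Partrec.recursiveIn (Partrec.nat_iff.1 (Computable.const _))
  have hrec := Nat.RecursiveIn.prec hbase hstep
  have hin : Nat.RecursiveIn {haltK} (fun n : ℕ => Part.some (Nat.pair 0 n)) :=
    Nat.Partrec.recursiveIn (Partrec.nat_iff.1
      (Primrec₂.natPair.to_comp.comp (Computable.const 0) Computable.id))
  refine (Nat.RecursiveIn.comp hrec hin).of_eq_tot ?_
  intro n
  simp only [Part.bind_eq_bind, Part.mem_bind_iff, Part.mem_some_iff]
  refine ⟨_, rfl, ?_⟩
  simp only [Nat.unpair_pair]
  induction n with
  | zero => simp [appr]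
  | succ n ih =>
    simp only [Part.mem_bind_iff]
    refine ⟨_, ih, ?_⟩
    have h1 := trans_spec c0 hc0 n
    rw [Part.mem_bind_iff] at h1
    obtain ⟨b, hb, hb2⟩ := h1
    refine ⟨Nat.pair (Nat.pair n (encode (appr n))) b, ?_, ?_⟩
    · simp only [Seq.seq, Part.map_eq_map, Part.mem_bind_iff, Part.mem_map_iff]
      refine ⟨_, ⟨_, Part.mem_some _, rfl⟩, b, ?_, ?_⟩
      · refine ⟨_, Part.mem_some _, ?_⟩
        simpa using hb
      · simp
    · have h2 : Nat.pair (Nat.pair n (encode (appr n))) b
          = encode (((n, appr n), b) : (ℕ × List Bool) × ℕ) := by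
        simp [Encodable.encode_prod_val]
      rw [h2]
      rw [encodek]
      exact ⟨_, Part.mem_some _, Part.mem_map _ hb2⟩

theorem genSet_reducible :
    TuringReducible (fun n : ℕ => Part.some (if n ∈ genSet then (1 : ℕ) else 0))
        (fun n : ℕ => Part.some
          (if ((Denumerable.ofNat Nat.Partrec.Code n).eval n).Dom then (1 : ℕ) else 0)) := by
  have hseq := seq_recursiveIn
  change RecursiveIn {haltK} _
  rw [RecursiveIn.iff_nat]
  have hB : Computable (fun q : ℕ × List Bool => bif decide (q.2[q.1]? = some true) then 1 else 0) := by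
    refine Computable.cond ?_ (Computable.const 1) (Computable.const 0)
    exact (PrimrecRel.decide Primrec.eq).to_comp.comp
      (Computable.list_getElem?.comp Computable.snd Computable.fst) (Computable.const (some true))
  have hB' : Nat.RecursiveIn {haltK} (fun n => Part.bind
      (Part.ofOption (decode (α := ℕ × List Bool) n)) fun a : ℕ × List Bool =>
        (Part.some (bif decide (a.2[a.1]? = some true) then (1 : ℕ) else 0)).map encode) :=
    Nat.Partrec.recursiveIn hB
  have hsucc : Nat.RecursiveIn {haltK} (fun n : ℕ => Part.some (n + 1)) :=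
    Nat.RecursiveIn.succ
  have hid : Nat.RecursiveIn {haltK} (fun n : ℕ => Part.some n) :=
    Nat.Partrec.recursiveIn Nat.Partrec.some
  refine (Nat.RecursiveIn.comp hB' (Nat.RecursiveIn.pair hid
    (Nat.RecursiveIn.comp hseq hsucc))).of_eq_tot ?_
  intro n
  simp only [Seq.seq, Part.map_eq_map, Part.mem_bind_iff, Part.mem_map_iff, Part.bind_eq_bind]
  refine ⟨encode ((n, appr (n + 1)) : ℕ × List Bool), ?_, ?_⟩
  · simp [Encodable.encode_prod_val]
  · simp only [encodek, Part.coe_some, Part.mem_some_iff]
    by_cases h : n ∈ genSet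
    · have h' : (appr (n + 1))[n]? = some true := h
      simp [h, h']
    · have h' : ¬ (appr (n + 1))[n]? = some true := h
      simp [h, h']

end Pool.Agent.Lib.MP354b3e
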