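import Mathlib

set_option autoImplicit false
open Classical

namespace Pool.Agent.Lib.MP354b3e

/-- The partial oracle given by a finite binary string. -/
def strOracle (σ : List Bool) : ℕ →. ℕ :=
  fun n => Part.ofOption ((σ[n]?).map (fun b => cond b 1 0))

/-- The restriction of a set to its first `k` bits. -/
noncomputable def restr (A : Set ℕ) (k : ℕ) : List Bool :=
  (List.range k).map (fun i => decide (i ∈ A))

theorem restr_length (A : Set ℕ) (k : ℕ) : (restr A k).length = k := by
  simp [restr]

theorem restr_getElem? (A : Set ℕ) (k n : ℕ) :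
    (restr A k)[n]? = if n < k then some (decide (n ∈ A)) else none := by
  unfold restr
  split_ifs with h
  · simp [h]
  · simp at h
    simp [h]

theorem restr_prefix (A : Set ℕ) {k l : ℕ} (h : k ≤ l) : restr A k <+: restr A l := by
  rw [List.prefix_iff_getElem?]
  intro i hi
  rw [restr_length] at hi
  rw [restr_getElem?, if_pos (by omega)]
  simp [restr]

/-- `F` is a (monotone, partial recursive) functional computing `f` from `A`. -/
structure IsFunctional (A : Set ℕ) (f : ℕ →. ℕ) (F : List Bool → ℕ →. ℕ) : Prop where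
  partrec : Partrec₂ F
  mono : ∀ {σ τ : List Bool} {n y : ℕ}, σ <+: τ → y ∈ F σ n → y ∈ F τ n
  sound : ∀ {k n y : ℕ}, y ∈ F (restr A k) n → y ∈ f n
  complete : ∀ {n y : ℕ}, y ∈ f n → ∃ k, y ∈ F (restr A k) n

/-- The finite use principle. -/
theorem exists_functional (A : Set ℕ) (f : ℕ →. ℕ)
    (hf : Nat.RecursiveIn {fun n : ℕ => Part.some (if n ∈ A then (1 : ℕ) else 0)} f) :
    ∃ F : List Bool → ℕ →. ℕ, IsFunctional A f F := by
  induction hf with
  | zero =>
    refine ⟨fun _ _ => Part.some 0, ?_, ?_, ?_, ?_⟩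
    · exact (Computable.const 0).partrec
    · intro σ τ n y _ h; exact h
    · intro k n y h; exact h
    · intro n y h; exact ⟨0, h⟩
  | succ =>
    refine ⟨fun _ n => Part.some (Nat.succ n), ?_, ?_, ?_, ?_⟩
    · exact (Computable.succ.comp Computable.snd).partrec
    · intro σ τ n y _ h; exact h
    · intro k n y h; exact h
    · intro n y h; exact ⟨0, h⟩
  | left =>
    refine ⟨fun _ n => Part.some (Nat.unpair n).1, ?_, ?_, ?_, ?_⟩
    · exact (Computable.fst.comp (Computable.unpair.comp Computable.snd)).partrec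
    · intro σ τ n y _ h; exact h
    · intro k n y h; exact h
    · intro n y h; exact ⟨0, h⟩
  | right =>
    refine ⟨fun _ n => Part.some (Nat.unpair n).2, ?_, ?_, ?_, ?_⟩
    · exact (Computable.snd.comp (Computable.unpair.comp Computable.snd)).partrec
    · intro σ τ n y _ h; exact h
    · intro k n y h; exact h
    · intro n y h; exact ⟨0, h⟩
  | oracle g hg =>
    have hg' : g = fun n : ℕ => Part.some (if n ∈ A then (1 : ℕ) else 0) := hg
    subst hg'
    refine ⟨strOracle, ?_, ?_, ?_, ?_⟩
    · refine Computable.ofOption ?_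
      refine Computable.option_map (Computable.list_getElem?.comp Computable.fst Computable.snd) ?_
      exact (Computable.cond Computable.snd (Computable.const 1) (Computable.const 0)).to₂
    · intro σ τ n y h hy
      simp only [strOracle, Part.mem_ofOption, Option.mem_def, Option.map_eq_some_iff] at hy ⊢
      obtain ⟨b, hb, rfl⟩ := hy
      refine ⟨b, ?_, rfl⟩
      obtain ⟨t, rfl⟩ := h
      obtain ⟨hlt, _⟩ := List.getElem?_eq_some_iff.1 hb
      rw [List.getElem?_append_left hlt]
      exact hb
    · intro k n y hy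
      simp only [strOracle, Part.mem_ofOption, Option.mem_def, Option.map_eq_some_iff,
        restr_getElem?] at hy
      obtain ⟨b, hb, rfl⟩ := hy
      split_ifs at hb with h
      simp only [Option.some.injEq] at hb
      subst hb
      by_cases hA : n ∈ A <;> simp [hA]
    · intro n y hy
      refine ⟨n + 1, ?_⟩
      simp only [strOracle, Part.mem_ofOption, Option.mem_def, Option.map_eq_some_iff,
        restr_getElem?]
      refine ⟨decide (n ∈ A), by simp, ?_⟩
      simp only [Part.mem_some_iff] at hy
      subst hy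
      by_cases hA : n ∈ A <;> simp [hA]
  | @pair f h _ _ ihf ihh =>
    obtain ⟨F, hF⟩ := ihf
    obtain ⟨H, hH⟩ := ihh
    refine ⟨fun σ n => (F σ n).bind (fun a => (H σ n).map (fun b => Nat.pair a b)),
      ?_, ?_, ?_, ?_⟩
    · exact Partrec.bind hF.partrec
        (Partrec.map (hH.partrec.comp (Computable.fst.comp Computable.fst)
          (Computable.snd.comp Computable.fst))
          (Primrec₂.natPair.to_comp.comp (Computable.snd.comp Computable.fst)
            Computable.snd).to₂).to₂
    · intro σ τ n y h hy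
      simp only [Part.mem_bind_iff, Part.mem_map_iff] at hy ⊢
      obtain ⟨a, ha, b, hb, rfl⟩ := hy
      exact ⟨a, hF.mono h ha, b, hH.mono h hb, rfl⟩
    · intro k n y hy
      simp only [Part.mem_bind_iff, Part.mem_map_iff] at hy
      obtain ⟨a, ha, b, hb, rfl⟩ := hy
      simp only [Seq.seq, Part.map_eq_map, Part.mem_bind_iff, Part.mem_map_iff]
      exact ⟨_, ⟨a, hF.sound ha, rfl⟩, b, hH.sound hb, rfl⟩
    · intro n y hy
      simp only [Seq.seq, Part.map_eq_map, Part.mem_bind_iff, Part.mem_map_iff] at hy
      obtain ⟨_, ⟨a, ha, rfl⟩, b, hb, rfl⟩ := hy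
      obtain ⟨k, hk⟩ := hF.complete ha
      obtain ⟨l, hl⟩ := hH.complete hb
      refine ⟨max k l, ?_⟩
      simp only [Part.mem_bind_iff, Part.mem_map_iff]
      exact ⟨a, hF.mono (restr_prefix A (le_max_left _ _)) hk, b,
        hH.mono (restr_prefix A (le_max_right _ _)) hl, rfl⟩
  | @comp f h _ _ ihf ihh =>
    obtain ⟨F, hF⟩ := ihf
    obtain ⟨H, hH⟩ := ihh
    refine ⟨fun σ n => (H σ n).bind (fun a => F σ a), ?_, ?_, ?_, ?_⟩
    · exact Partrec.bind hH.partrec
        (hF.partrec.comp (Computable.fst.comp Computable.fst) Computable.snd).to₂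
    · intro σ τ n y h hy
      simp only [Part.mem_bind_iff] at hy ⊢
      obtain ⟨a, ha, hb⟩ := hy
      exact ⟨a, hH.mono h ha, hF.mono h hb⟩
    · intro k n y hy
      simp only [Part.mem_bind_iff] at hy
      obtain ⟨a, ha, hb⟩ := hy
      exact Part.mem_bind (hH.sound ha) (hF.sound hb)
    · intro n y hy
      change y ∈ (h n).bind f at hy
      rw [Part.mem_bind_iff] at hy
      obtain ⟨a, ha, hb⟩ := hy
      obtain ⟨k, hk⟩ := hH.complete ha
      obtain ⟨l, hl⟩ := hF.complete hb
      refine ⟨max k l, ?_⟩
      simp only [Part.mem_bind_iff]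
      exact ⟨a, hH.mono (restr_prefix A (le_max_left _ _)) hk,
        hF.mono (restr_prefix A (le_max_right _ _)) hl⟩
  | @prec f h _ _ ihf ihh =>
    obtain ⟨F, hF⟩ := ihf
    obtain ⟨H, hH⟩ := ihh
    refine ⟨fun σ p => Nat.rec (motive := fun _ => Part ℕ) (F σ p.unpair.1)
      (fun y IH => IH.bind fun i => H σ (Nat.pair p.unpair.1 (Nat.pair y i))) p.unpair.2,
      ?_, ?_, ?_, ?_⟩
    · have h1 : Computable (fun q : List Bool × ℕ => q.2.unpair.1) :=
        Computable.fst.comp (Computable.unpair.comp Computable.snd)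
      have h2 : Computable (fun q : List Bool × ℕ => q.2.unpair.2) :=
        Computable.snd.comp (Computable.unpair.comp Computable.snd)
      refine Partrec.nat_rec (f := fun q : List Bool × ℕ => q.2.unpair.2)
        (g := fun q : List Bool × ℕ => F q.1 q.2.unpair.1)
        (h := fun (q : List Bool × ℕ) (r : ℕ × ℕ) =>
          H q.1 (Nat.pair q.2.unpair.1 (Nat.pair r.1 r.2))) h2
        (hF.partrec.comp Computable.fst h1) ?_
      refine hH.partrec.comp (Computable.fst.comp Computable.fst) ?_
      refine Primrec₂.natPair.to_comp.comp (h1.comp Computable.fst) ?_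
      exact Primrec₂.natPair.to_comp.comp (Computable.fst.comp Computable.snd)
        (Computable.snd.comp Computable.snd)
    · intro σ τ n y hp hy
      revert hy y
      induction n.unpair.2 with
      | zero => intro y hy; exact hF.mono hp hy
      | succ m ih =>
        intro y hy
        simp only [Part.mem_bind_iff] at hy ⊢
        obtain ⟨a, ha, hb⟩ := hy
        exact ⟨a, ih ha, hH.mono hp hb⟩
    · intro k n y hy
      revert hy y
      change ∀ y, _ → y ∈ Nat.rec (motive := fun _ => Part ℕ) (f n.unpair.1)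
        (fun y IH => IH.bind fun i => h (Nat.pair n.unpair.1 (Nat.pair y i))) n.unpair.2
      induction n.unpair.2 with
      | zero => intro y hy; exact hF.sound hy
      | succ m ih =>
        intro y hy
        simp only [Part.mem_bind_iff] at hy ⊢
        obtain ⟨a, ha, hb⟩ := hy
        exact ⟨a, ih _ ha, hH.sound hb⟩
    · intro n y hy
      revert hy y
      change ∀ y, y ∈ Nat.rec (motive := fun _ => Part ℕ) (f n.unpair.1)
        (fun y IH => IH.bind fun i => h (Nat.pair n.unpair.1 (Nat.pair y i))) n.unpair.2 → _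
      induction n.unpair.2 with
      | zero =>
        intro y hy
        exact hF.complete hy
      | succ m ih =>
        intro y hy
        simp only [Part.mem_bind_iff] at hy
        obtain ⟨a, ha, hb⟩ := hy
        obtain ⟨k, hk⟩ := ih _ ha
        obtain ⟨l, hl⟩ := hH.complete hb
        refine ⟨max k l, ?_⟩
        simp only [Part.mem_bind_iff]
        refine ⟨a, ?_, hH.mono (restr_prefix A (le_max_right _ _)) hl⟩
        revert hk
        have key : ∀ (m : ℕ) (a : ℕ), a ∈ Nat.rec (motive := fun _ => Part ℕ)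
            (F (restr A k) n.unpair.1) (fun y IH => IH.bind fun i =>
              H (restr A k) (Nat.pair n.unpair.1 (Nat.pair y i))) m →
            a ∈ Nat.rec (motive := fun _ => Part ℕ)
            (F (restr A (max k l)) n.unpair.1) (fun y IH => IH.bind fun i =>
              H (restr A (max k l)) (Nat.pair n.unpair.1 (Nat.pair y i))) m := by
          intro m
          induction m with
          | zero => intro a ha; exact hF.mono (restr_prefix A (le_max_left _ _)) ha
          | succ m ih =>
            intro a ha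
            simp only [Part.mem_bind_iff] at ha ⊢
            obtain ⟨b, hb, hc⟩ := ha
            exact ⟨b, ih _ hb, hH.mono (restr_prefix A (le_max_left _ _)) hc⟩
        exact key m a
  | @rfind f _ ihf =>
    obtain ⟨F, hF⟩ := ihf
    refine ⟨fun σ a => Nat.rfind (fun n => (F σ (Nat.pair a n)).map (fun m => decide (m = 0))),
      ?_, ?_, ?_, ?_⟩
    · have h1 : Partrec (fun q : (List Bool × ℕ) × ℕ => F q.1.1 (Nat.pair q.1.2 q.2)) :=
        hF.partrec.comp (Computable.fst.comp Computable.fst)
          (Primrec₂.natPair.to_comp.comp (Computable.snd.comp Computable.fst) Computable.snd)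
      have h2 : Computable (fun m : ℕ => decide (m = 0)) :=
        (Primrec.eq.comp Primrec.id (Primrec.const 0)).decide.to_comp
      have h3 : Computable₂ (fun (_ : (List Bool × ℕ) × ℕ) (m : ℕ) => decide (m = 0)) :=
        (h2.comp Computable.snd).to₂
      have h4 := Partrec.map h1 h3
      exact Partrec.rfind (p := fun (q : List Bool × ℕ) (n : ℕ) =>
        (F q.1 (Nat.pair q.2 n)).map (fun m => decide (m = 0))) h4
    · intro σ τ n y hp hy
      simp only [Nat.mem_rfind, Part.mem_map_iff] at hy ⊢
      obtain ⟨⟨a, ha, h1⟩, h2⟩ := hy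
      refine ⟨⟨a, hF.mono hp ha, h1⟩, fun {m} hm => ?_⟩
      obtain ⟨b, hb, h3⟩ := h2 hm
      exact ⟨b, hF.mono hp hb, h3⟩
    · intro k n y hy
      simp only [Nat.mem_rfind, Part.mem_map_iff, Part.map_eq_map] at hy ⊢
      obtain ⟨⟨a, ha, h1⟩, h2⟩ := hy
      refine ⟨⟨a, hF.sound ha, h1⟩, fun {m} hm => ?_⟩
      obtain ⟨b, hb, h3⟩ := h2 hm
      exact ⟨b, hF.sound hb, h3⟩
    · intro n y hy
      simp only [Nat.mem_rfind, Part.mem_map_iff, Part.map_eq_map] at hy
      obtain ⟨⟨a, ha, h1⟩, h2⟩ := hy
      obtain ⟨k, hk⟩ := hF.complete ha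
      have h3 : ∀ m < y, ∃ l, ∃ b, b ∈ F (restr A l) (Nat.pair n m) ∧ decide (b = 0) = false := by
        intro m hm
        obtain ⟨b, hb, h4⟩ := h2 hm
        obtain ⟨l, hl⟩ := hF.complete hb
        exact ⟨l, b, hl, h4⟩
      choose! L hL using h3
      refine ⟨max k ((Finset.range y).sup L), ?_⟩
      simp only [Nat.mem_rfind, Part.mem_map_iff]
      refine ⟨⟨a, hF.mono (restr_prefix A (le_max_left _ _)) hk, h1⟩, fun {m} hm => ?_⟩
      obtain ⟨b, hb, h4⟩ := hL m hm
      refine ⟨b, hF.mono (restr_prefix A ?_) hb, h4⟩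
      exact le_trans (Finset.le_sup (f := L) (Finset.mem_range.2 hm)) (le_max_right _ _)

end Pool.Agent.Lib.MP354b3e
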